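import Pool.Agent.P8H36.FD.Stm

/-!
Project FD (helper36), package LUR, by helper86: a field between `K` and `K(X)` which contains a
nonconstant polynomial is generated by a polynomial.
-/

set_option autoImplicit false

namespace Pool.Agent.P8H86.FD

open Polynomial IntermediateField Pool.Agent.P8H36.FD

variable {K : Type} [Field K]

lemma intDegree_add_of_lt {x y : RatFunc K} (hx : x ≠ 0) (hy : y ≠ 0)
    (h : x.intDegree < y.intDegree) : x + y ≠ 0 ∧ (x + y).intDegree = y.intDegree := by
  have h0 : x + y ≠ 0 := by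
    intro h0
    have h1 : x = -y := eq_neg_of_add_eq_zero_left h0
    rw [h1, RatFunc.intDegree_neg] at h
    exact lt_irrefl _ h
  refine ⟨h0, le_antisymm ?_ ?_⟩
  · refine (RatFunc.intDegree_add_le hy h0).trans ?_
    rw [max_eq_right h.le]
  · have h1 : (x + y) + (-x) = y := by ring
    have h2 := RatFunc.intDegree_add_le (x := x + y) (y := -x) (neg_ne_zero.2 hx)
      (by rw [h1]; exact hy)
    rw [h1, RatFunc.intDegree_neg] at h2
    rcases le_max_iff.1 h2 with h3 | h3
    · exact h3
    · omega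

lemma aeval_deg {t : RatFunc K} (ht : 0 < t.intDegree) : ∀ (n : ℕ) (P : K[X]), P ≠ 0 →
    P.natDegree = n → aeval t P ≠ 0 ∧ (aeval t P).intDegree = n * t.intDegree := by
  have ht0 : t ≠ 0 := by
    rintro rfl
    rw [RatFunc.intDegree_zero] at ht
    exact lt_irrefl _ ht
  intro n
  induction n with
  | zero =>
    intro P hP hn
    obtain ⟨c, rfl⟩ : ∃ c, P = C c := ⟨_, eq_C_of_natDegree_eq_zero hn⟩
    have hc : c ≠ 0 := fun h => hP (by rw [h, map_zero])
    rw [aeval_C]
    refine ⟨(_root_.map_ne_zero _).2 hc, ?_⟩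
    rw [RatFunc.algebraMap_eq_C, RatFunc.intDegree_C]
    simp
  | succ n ih =>
    intro P hP hn
    have h1 : P.divX ≠ 0 := by
      intro h
      have h2 := divX_mul_X_add P
      rw [h, zero_mul, zero_add] at h2
      rw [← h2, natDegree_C] at hn
      omega
    have h2 : P.divX.natDegree = n := by
      rw [natDegree_divX_eq_natDegree_tsub_one, hn]
      rfl
    obtain ⟨h3, h4⟩ := ih _ h1 h2
    have h5 : aeval t P = aeval t P.divX * t + algebraMap K (RatFunc K) (P.coeff 0) := by
      conv_lhs => rw [← divX_mul_X_add P]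
      simp
    have h6 : (aeval t P.divX * t).intDegree = (n + 1 : ℕ) * t.intDegree := by
      rw [RatFunc.intDegree_mul h3 ht0, h4]
      push_cast
      ring
    have h7 : aeval t P.divX * t ≠ 0 := mul_ne_zero h3 ht0
    rw [h5]
    by_cases hc : P.coeff 0 = 0
    · rw [hc, map_zero, add_zero]
      exact ⟨h7, h6⟩
    · have h8 : algebraMap K (RatFunc K) (P.coeff 0) ≠ 0 := (_root_.map_ne_zero _).2 hc
      have h9 : (algebraMap K (RatFunc K) (P.coeff 0)).intDegree = 0 := by
        rw [RatFunc.algebraMap_eq_C, RatFunc.intDegree_C]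
      have h10 := intDegree_add_of_lt h8 h7 (by rw [h9, h6]; positivity)
      rw [add_comm, h10.2, h6]
      exact ⟨h10.1, rfl⟩

lemma adj_inv (s : RatFunc K) : K⟮s⁻¹⟯ = K⟮s⟯ := by
  apply le_antisymm
  · rw [adjoin_simple_le_iff]
    exact inv_mem (mem_adjoin_simple_self K s)
  · rw [adjoin_simple_le_iff]
    have h := inv_mem (mem_adjoin_simple_self K s⁻¹)
    rwa [inv_inv] at h

lemma adj_sub (s : RatFunc K) (c : K) : K⟮s - algebraMap K (RatFunc K) c⟯ = K⟮s⟯ := by
  apply le_antisymm
  · rw [adjoin_simple_le_iff]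
    exact sub_mem (mem_adjoin_simple_self K s) (IntermediateField.algebraMap_mem _ c)
  · rw [adjoin_simple_le_iff]
    have h := add_mem (mem_adjoin_simple_self K (s - algebraMap K (RatFunc K) c))
      (IntermediateField.algebraMap_mem (K⟮s - algebraMap K (RatFunc K) c⟯) c)
    rwa [sub_add_cancel] at h

/-- a generator with a pole at infinity -/
lemma exists_gen {t : RatFunc K} (ht : ∀ c : K, t ≠ algebraMap K (RatFunc K) c) :
    ∃ s : RatFunc K, 0 < s.intDegree ∧ K⟮s⟯ = K⟮t⟯ := by
  have key : ∀ s : RatFunc K, s.intDegree ≠ 0 → ∃ s' : RatFunc K, 0 < s'.intDegree ∧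
      K⟮s'⟯ = K⟮s⟯ := by
    intro s hs
    rcases lt_or_gt_of_ne hs with h | h
    · refine ⟨s⁻¹, ?_, adj_inv s⟩
      rw [RatFunc.intDegree_inv]
      omega
    · exact ⟨s, h, rfl⟩
  by_cases h0 : t.intDegree = 0
  · obtain ⟨c, hc⟩ : ∃ c, c = t.num.leadingCoeff / t.denom.leadingCoeff := ⟨_, rfl⟩
    have hn0 : t.num ≠ 0 := by
      intro h
      rw [RatFunc.num_eq_zero_iff] at h
      exact ht 0 (by rw [h, map_zero])
    have hd0 : t.denom ≠ 0 := t.denom_ne_zero
    have hc0 : c ≠ 0 := by
      rw [hc]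
      exact div_ne_zero (leadingCoeff_ne_zero.2 hn0) (leadingCoeff_ne_zero.2 hd0)
    have hdeg : t.num.natDegree = t.denom.natDegree := by
      unfold RatFunc.intDegree at h0
      omega
    have e1 : t - algebraMap K (RatFunc K) c =
        algebraMap K[X] (RatFunc K) (t.num - C c * t.denom) /
          algebraMap K[X] (RatFunc K) t.denom := by
      have h2 : algebraMap K[X] (RatFunc K) t.denom ≠ 0 := by
        simpa using hd0
      have h3 : algebraMap K[X] (RatFunc K) (C c) = algebraMap K (RatFunc K) c := by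
        rw [RatFunc.algebraMap_C, RatFunc.algebraMap_eq_C]
      rw [map_sub, map_mul, h3, sub_div, mul_div_cancel_right₀ _ h2, RatFunc.num_div_denom]
    have hq0 : t.num - C c * t.denom ≠ 0 := by
      intro h
      rw [h, map_zero, zero_div] at e1
      exact ht c (sub_eq_zero.1 e1)
    have hq1 : (t.num - C c * t.denom).natDegree < t.denom.natDegree := by
      have h2 : (C c * t.denom).degree = t.denom.degree := by
        rw [degree_mul, degree_C hc0, zero_add]
      have h3 : t.num.degree = (C c * t.denom).degree := by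
        rw [h2, degree_eq_natDegree hn0, degree_eq_natDegree hd0, hdeg]
      have h4 : (t.num - C c * t.denom).degree < t.num.degree := by
        refine degree_sub_lt_left h3 hn0 ?_
        rw [leadingCoeff_mul, leadingCoeff_C, hc,
          div_mul_cancel₀ _ (leadingCoeff_ne_zero.2 hd0)]
      rw [← hdeg]
      exact natDegree_lt_natDegree hq0 h4
    have e2 : (t - algebraMap K (RatFunc K) c).intDegree < 0 := by
      have h2 : algebraMap K[X] (RatFunc K) t.denom ≠ 0 := by
        simpa using hd0
      have h3 : algebraMap K[X] (RatFunc K) (t.num - C c * t.denom) ≠ 0 :=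
        RatFunc.algebraMap_ne_zero hq0
      rw [e1, RatFunc.intDegree_div h3 h2, RatFunc.intDegree_polynomial,
        RatFunc.intDegree_polynomial]
      omega
    obtain ⟨s', h1, h2⟩ := key _ e2.ne
    exact ⟨s', h1, h2.trans (adj_sub t c)⟩
  · exact key t h0

theorem lur : S_LUR := by
  intro K _ _ E η hη hE
  have hη0 : η ≠ 0 := by
    rintro rfl
    simp at hη
  have hEb : E ≠ ⊥ := by
    intro h
    rw [h, IntermediateField.mem_bot] at hE
    obtain ⟨c, hc⟩ := hE
    rw [RatFunc.algebraMap_eq_C, ← RatFunc.algebraMap_C] at hc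
    have h1 := RatFunc.algebraMap_injective K hc
    rw [← h1, natDegree_C] at hη
    exact lt_irrefl _ hη
  have hg : ∀ c : K, RatFunc.Luroth.generator E ≠ algebraMap K (RatFunc K) c := fun c h =>
    RatFunc.Luroth.generator_ne_C hEb ⟨c, by rw [h, RatFunc.algebraMap_eq_C]⟩
  obtain ⟨t, ht, hte⟩ := exists_gen hg
  rw [← RatFunc.Luroth.eq_adjoin_generator] at hte
  rw [← hte, mem_adjoin_simple_iff] at hE
  obtain ⟨A, B, hAB⟩ := hE
  have hη' : algebraMap K[X] (RatFunc K) η ≠ 0 := by simpa using hη0
  have hA' : aeval t A ≠ 0 := by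
    intro h
    rw [h, zero_div] at hAB
    exact hη' hAB
  have hB' : aeval t B ≠ 0 := by
    intro h
    rw [h, div_zero] at hAB
    exact hη' hAB
  have hA : A ≠ 0 := by
    rintro rfl
    simp at hA'
  have hB : B ≠ 0 := by
    rintro rfl
    simp at hB'
  have hlt : B.natDegree < A.natDegree := by
    have h1 := congrArg RatFunc.intDegree hAB
    rw [RatFunc.intDegree_polynomial, RatFunc.intDegree_div hA' hB', (aeval_deg ht _ A hA rfl).2,
      (aeval_deg ht _ B hB rfl).2, ← sub_mul] at h1
    have h2 : (0 : ℤ) < (A.natDegree - B.natDegree : ℤ) * t.intDegree := by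
      rw [← h1]
      exact_mod_cast hη
    by_contra hcon
    have h3 : (A.natDegree - B.natDegree : ℤ) ≤ 0 := by omega
    nlinarith
  obtain ⟨a, ha⟩ : ∃ a, a = A.leadingCoeff⁻¹ := ⟨_, rfl⟩
  have ha0 : a ≠ 0 := by
    rw [ha]
    exact inv_ne_zero (leadingCoeff_ne_zero.2 hA)
  have hmon : (C a * A).Monic := by
    unfold Monic
    rw [leadingCoeff_mul, leadingCoeff_C, ha, inv_mul_cancel₀ (leadingCoeff_ne_zero.2 hA)]
  obtain ⟨p, hp⟩ : ∃ p : K[X][X], p = (C a * A).map C - C η * (C a * B).map C := ⟨_, rfl⟩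
  have hpm : p.Monic := by
    rw [hp]
    refine (hmon.map C).sub_of_left ?_
    have d1 : ∀ q : K[X], ((C a * q).map (C : K →+* K[X])).degree = q.degree := by
      intro q
      rw [degree_map_eq_of_injective C_injective, degree_mul, degree_C ha0, zero_add]
    rw [d1, degree_mul, d1, degree_C hη0, zero_add]
    exact degree_lt_degree hlt
  have hint : IsIntegral K[X] t := by
    refine ⟨p, hpm, ?_⟩
    have e1 : ∀ q : K[X], eval₂ (algebraMap K[X] (RatFunc K)) t (q.map C) = aeval t q := by
      intro q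
      rw [eval₂_map, aeval_def]
      congr 1
    rw [hp, eval₂_sub, eval₂_mul, eval₂_C, e1, e1, map_mul, map_mul, hAB]
    field_simp
    ring
  obtain ⟨θ, hθ⟩ := IsIntegrallyClosed.isIntegral_iff.1 hint
  refine ⟨θ, ?_, ?_⟩
  · rw [← hθ, RatFunc.intDegree_polynomial] at ht
    exact_mod_cast ht
  · rw [hθ, hte]

end Pool.Agent.P8H86.FD
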